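import Mathlib

set_option autoImplicit false

namespace Pool.Agent.H.MP_8db9bd_an

open Set Metric Complex
open scoped ComplexConjugate

lemma pick {g : ℂ → ℂ} (hd : Differentiable ℂ g) {ρ : ℝ} (hρ : ρ < 1)
    (hb : ∀ z : ℂ, ‖z‖ = 1 → ‖g z‖ ≤ ρ) : ‖deriv g 0‖ ≤ 1 - ‖g 0‖ ^ 2 := by
  have h1 : ∀ z ∈ ball (0 : ℂ) 1, ‖g z‖ < 1 := fun z hz =>
    (norm_le_of_forall_mem_frontier_norm_le isBounded_ball hd.diffContOnCl (fun w hw => hb w (by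
      rw [frontier_ball _ one_ne_zero] at hw; simpa using hw)) (subset_closure hz)).trans_lt hρ
  have w1 := h1 0 (mem_ball_self one_pos)
  have h2 : ∀ z ∈ ball (0 : ℂ) 1, ‖g z - g 0‖ < ‖1 - conj (g 0) * g z‖ := by
    intro z hz
    have a := h1 z hz
    have e : ‖1 - conj (g 0) * g z‖ ^ 2 - ‖g z - g 0‖ ^ 2 = (1 - ‖g 0‖ ^ 2) * (1 - ‖g z‖ ^ 2) := by
      simp only [Complex.sq_norm, Complex.normSq_apply, sub_re, sub_im, mul_re, mul_im, one_re,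
        one_im, conj_re, conj_im]
      ring
    have b : 0 < (1 - ‖g 0‖ ^ 2) * (1 - ‖g z‖ ^ 2) :=
      mul_pos (by nlinarith [norm_nonneg (g 0)]) (by nlinarith [norm_nonneg (g z)])
    exact lt_of_pow_lt_pow_left₀ 2 (norm_nonneg _) (by linarith)
  have h3 : ∀ z ∈ ball (0 : ℂ) 1, 1 - conj (g 0) * g z ≠ 0 := fun z hz =>
    norm_pos_iff.1 ((norm_nonneg _).trans_lt (h2 z hz))
  have h4 := norm_deriv_le_one_of_mapsTo_ball
    (f := fun z => (g z - g 0) / (1 - conj (g 0) * g z)) (c := 0) (R := 1)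
    (((hd.sub_const _).differentiableOn).div (by fun_prop) h3) (fun z hz => by
      have := h2 z hz
      simp only [sub_self, zero_div, mem_closedBall, dist_zero_right, norm_div]
      exact div_le_one_of_le₀ this.le (norm_nonneg _)) one_pos
  have d := (hd 0).hasDerivAt
  have h0 := h3 0 (mem_ball_self one_pos)
  rw [((d.sub_const (g 0)).fun_div ((d.const_mul (conj (g 0))).const_sub 1) h0).deriv, sub_self,
    zero_mul, sub_zero, sq, mul_div_mul_right _ _ h0, norm_div, div_le_one (norm_pos_iff.2 h0),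
    conj_mul', ← ofReal_one, ← ofReal_pow, ← ofReal_sub, norm_real,
    Real.norm_of_nonneg (by nlinarith [norm_nonneg (g 0)])] at h4
  exact h4

lemma fin (n : ℕ) (hn : 1 ≤ n) (u c δ a L1 L2 : ℝ) (u0 : 0 < u)
    (e3 : c * (n + 2) ^ 2 = u ^ n * (n + 1)) (δ0 : 0 < δ) (δ1 : δ ≤ 1 / 2) (t2 : δ ^ 2 < c * a ^ 2)
    (a0 : 0 ≤ a) (tri : 2 * δ * a ≤ (1 + δ) * L1 + (1 - δ) * L2)
    (k1 : (u * (1 - δ / (n + 1))) ^ n * L2 ^ 2 ≤ (2 * δ ^ 2) ^ 2)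
    (k2 : (u * (1 - -δ / (n + 1))) ^ n * L1 ^ 2 ≤ (2 * δ ^ 2) ^ 2) : False := by
  have n1 : (1 : ℝ) ≤ n := by exact_mod_cast hn
  obtain ⟨x, hx⟩ : ∃ x : ℝ, x = δ / (n + 1) := ⟨_, rfl⟩
  have x0 : 0 < x := by rw [hx]; positivity
  have x1 : (n + 1) * x = δ := by rw [hx]; field_simp
  rw [neg_div, ← hx, mul_pow] at k2
  rw [← hx, mul_pow] at k1
  have b1 := one_add_mul_le_pow (a := -x) (by nlinarith) n
  have b2 := one_add_mul_le_pow (a := x) (by linarith) n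
  rw [← sub_eq_add_neg] at b1
  rw [sub_neg_eq_add] at k2
  have un : 0 < u ^ n := pow_pos u0 n
  generalize u ^ n = U at *
  have m1 : U * (1 - δ) * L2 ^ 2 ≤ (2 * δ ^ 2) ^ 2 := le_trans (by gcongr; linarith) k1
  have m2 : U * (1 + n * x) * L1 ^ 2 ≤ (2 * δ ^ 2) ^ 2 := le_trans (by gcongr) k2
  have m3 : U * (1 + δ) * L1 ^ 2 ≤ (1 + x) * (2 * δ ^ 2) ^ 2 := by
    calc _ ≤ U * ((1 + x) * (1 + n * x)) * L1 ^ 2 := by
          gcongr; nlinarith [mul_pos x0 x0]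
      _ = (1 + x) * (U * (1 + n * x) * L1 ^ 2) := by ring
      _ ≤ _ := by gcongr
  have m4 : (2 * δ * a) ^ 2 ≤ 2 * ((1 + δ) * L1 ^ 2 + (1 - δ) * L2 ^ 2) := by
    refine (pow_le_pow_left₀ (by positivity) tri 2).trans ?_
    linarith [mul_nonneg (by nlinarith : 0 ≤ 1 - δ ^ 2) (sq_nonneg (L1 - L2))]
  have m5 : δ ^ 2 * (U * a ^ 2) ≤ δ ^ 2 * (2 * (2 + x) * δ ^ 2) := by
    linarith [mul_le_mul_of_nonneg_left m4 un.le]
  have m6 := le_of_mul_le_mul_left m5 (by positivity)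
  have m7 : δ ^ 2 * (n + 2) ^ 2 < c * a ^ 2 * (n + 2) ^ 2 := by gcongr
  have m8 := mul_le_mul_of_nonneg_left m6 (by positivity : (0 : ℝ) ≤ n + 1)
  have m9 : δ ^ 2 * (4 * (n + 1) + 2 * δ) ≤ δ ^ 2 * (n + 2) ^ 2 := by gcongr; nlinarith
  have : (n + 1) * (2 * (2 + x) * δ ^ 2) = δ ^ 2 * (4 * (n + 1) + 2 * δ) := by
    rw [← x1]; ring
  have : c * a ^ 2 * (n + 2) ^ 2 = (n + 1) * (U * a ^ 2) := by linear_combination a ^ 2 * e3
  linarith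

lemma core (n : ℕ) (hn : 1 ≤ n) (A B : ℂ) (γ : ℝ) (γ0 : 0 ≤ γ) (hA : ‖A‖ ≤ 1)
    (h : ∀ s ∈ Ioo (0 : ℝ) 1,
      Real.sqrt (1 - s) ^ n * ‖(1 - s) * A + s * B‖ ≤ 1 - s * (1 - s) ^ (n + 1) * γ) :
    (‖A‖ ^ 2 + γ) * (((n : ℝ) + 1) ^ (n + 1) / (n + 2) ^ (n + 2)) ≤ 1 := by
  have n1 : (1 : ℝ) ≤ n := by exact_mod_cast hn
  obtain ⟨u, hu⟩ : ∃ u : ℝ, u = (n + 1) / (n + 2) := ⟨_, rfl⟩
  have u0 : 0 < u := by rw [hu]; positivity
  have u1 : u ≤ 1 := by rw [hu, div_le_one (by positivity)]; linarith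
  obtain ⟨c, hc⟩ : ∃ c : ℝ, c = u ^ (n + 1) / (n + 2) := ⟨_, rfl⟩
  have e0 : ((n : ℝ) + 1) ^ (n + 1) / (n + 2) ^ (n + 2) = c := by
    rw [hc, hu, div_pow, div_div, ← pow_succ]
  have c0 : 0 < c := by rw [hc]; positivity
  have c1 : c ≤ 1 / 4 := by
    have : u ^ (n + 1) ≤ u := pow_le_of_le_one u0.le u1 (by omega)
    rw [hc, div_le_iff₀ (by positivity)]
    refine this.trans ?_
    rw [hu, div_le_iff₀ (by positivity)]
    nlinarith [sq_nonneg (n : ℝ)]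
  rw [e0]
  have key : ∀ δ : ℝ, |δ| ≤ 1 / 2 → (u * (1 - δ / (n + 1))) ^ n *
      ‖(1 - ((1 + δ) / (n + 2) : ℝ)) * A + ((1 + δ) / (n + 2) : ℝ) * B‖ ^ 2 ≤
      (1 - (1 - δ ^ 2) * (c * γ)) ^ 2 ∧ (1 - δ ^ 2) * (c * γ) ≤ 1 := by
    intro δ hδ
    obtain ⟨d1, d2⟩ := abs_le.1 hδ
    have s1 : (1 + δ) / (n + 2) < 1 := by rw [div_lt_one (by positivity)]; linarith
    have k := h ((1 + δ) / (n + 2)) ⟨div_pos (by linarith) (by positivity), s1⟩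
    have e : 1 - (1 + δ) / (n + 2) = u * (1 - δ / (n + 1)) := by rw [hu]; field_simp; ring
    have b := one_add_mul_le_pow (a := -(δ / (n + 1))) (by
      rw [le_neg, neg_neg, div_le_iff₀ (by positivity)]; linarith) (n + 1)
    have e2 : ((n + 1 : ℕ) : ℝ) * -(δ / (n + 1)) = -δ := by push_cast; field_simp
    rw [e2, ← sub_eq_add_neg, ← sub_eq_add_neg] at b
    have b2 : (1 - δ ^ 2) * (c * γ) ≤ (1 + δ) / (n + 2) * (1 - (1 + δ) / (n + 2)) ^ (n + 1) * γ := by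
      rw [e, mul_pow, hc]
      calc _ = (1 + δ) / (n + 2) * (u ^ (n + 1) * (1 - δ)) * γ := by ring
        _ ≤ _ := by gcongr; exact div_nonneg (by linarith) (by positivity)
    have p : 0 ≤ Real.sqrt (1 - (1 + δ) / (n + 2)) ^ n *
      ‖(1 - ((1 + δ) / (n + 2) : ℝ)) * A + ((1 + δ) / (n + 2) : ℝ) * B‖ := by positivity
    refine ⟨?_, by linarith⟩
    have := pow_le_pow_left₀ p (k.trans (sub_le_sub_left b2 1)) 2
    rwa [mul_pow, ← pow_mul, mul_comm n 2, pow_mul, Real.sq_sqrt (by linarith), e] at this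
  have η0 : c * γ ≤ 1 := by simpa using (key 0 (by norm_num)).2
  have cγ : 0 ≤ c * γ := by positivity
  by_contra! H
  have a1 : ‖A‖ ^ 2 ≤ 1 := by nlinarith [norm_nonneg A]
  obtain ⟨τ, t1, t2⟩ := exists_between (show 1 - c * γ < c * ‖A‖ ^ 2 by linarith)
  obtain ⟨δ, δ0, rfl⟩ : ∃ δ : ℝ, 0 < δ ∧ τ = δ ^ 2 :=
    ⟨Real.sqrt τ, Real.sqrt_pos.2 (by linarith), (Real.sq_sqrt (by linarith)).symm⟩
  have δ1 : δ ≤ 1 / 2 := by nlinarith
  obtain ⟨k1, k1'⟩ := key δ (by rwa [abs_of_pos δ0])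
  obtain ⟨k2, -⟩ := key (-δ) (by rwa [abs_neg, abs_of_pos δ0])
  rw [neg_sq] at k2
  have r : (1 - (1 - δ ^ 2) * (c * γ)) ^ 2 ≤ (2 * δ ^ 2) ^ 2 :=
    pow_le_pow_left₀ (by linarith) (by nlinarith [sq_nonneg δ]) 2
  have tri : 2 * δ * ‖A‖ ≤
      (1 + δ) * ‖(1 - ((1 + -δ) / (n + 2) : ℝ)) * A + ((1 + -δ) / (n + 2) : ℝ) * B‖ +
      (1 - δ) * ‖(1 - ((1 + δ) / (n + 2) : ℝ)) * A + ((1 + δ) / (n + 2) : ℝ) * B‖ := by
    have nm : ∀ (r : ℝ) (z : ℂ), 0 ≤ r → r * ‖z‖ = ‖r * z‖ := fun r z hr => by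
      rw [norm_mul, norm_real, Real.norm_of_nonneg hr]
    rw [nm _ _ (by linarith), nm _ _ (by linarith), nm _ _ (by linarith)]
    refine le_trans (le_of_eq ?_) (norm_sub_le _ _)
    congr 1
    have : (n : ℂ) + 2 ≠ 0 := by exact_mod_cast (by positivity : (n : ℝ) + 2 ≠ 0)
    push_cast
    field_simp
    ring
  generalize ‖(1 - ((1 + -δ) / (n + 2) : ℝ)) * A + ((1 + -δ) / (n + 2) : ℝ) * B‖ = L1 at *
  generalize ‖(1 - ((1 + δ) / (n + 2) : ℝ)) * A + ((1 + δ) / (n + 2) : ℝ) * B‖ = L2 at *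
  have e3 : c * (n + 2) ^ 2 = u ^ n * (n + 1) := by
    rw [hc, pow_succ u]
    nth_rewrite 2 [hu]
    field_simp
  exact fin n hn u c δ ‖A‖ L1 L2 u0 e3 δ0 δ1 t2 (norm_nonneg _) tri (k1.trans r) (k2.trans r)

lemma amgm (k : ℕ) (hk : 0 < k) (a b : ℝ) (ha : 0 ≤ a) (hb : 0 ≤ b) (h : a + b ≤ 1) :
    a ^ k * b ≤ (k : ℝ) ^ k / (k + 1) ^ (k + 1) := by
  have k0 : (0 : ℝ) < k := by exact_mod_cast hk
  have h1 : a * (k + 1) / k ≤ Real.exp ((1 - b * (k + 1)) / k) := by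
    refine le_trans ?_ (Real.add_one_le_exp _)
    rw [div_add_one k0.ne']
    gcongr
    nlinarith
  have h2 : b * (k + 1) ≤ Real.exp (b * (k + 1) - 1) := by
    linarith [Real.add_one_le_exp (b * (k + 1) - 1)]
  have h3 := mul_le_mul (pow_le_pow_left₀ (by positivity) h1 k) h2 (by positivity) (by positivity)
  rw [← Real.exp_nat_mul, ← Real.exp_add, mul_div_cancel₀ _ k0.ne', sub_add_sub_cancel', sub_self,
    Real.exp_zero, div_pow, mul_pow, div_mul_eq_mul_div, div_le_one (by positivity)] at h3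
  rw [le_div_iff₀ (by positivity), pow_succ]
  linarith

end Pool.Agent.H.MP_8db9bd_an
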