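import Mathlib
import Pool.Agent.H.MP_8db9bd_an.A

set_option autoImplicit false

namespace Pool.Agent.H.MP_8db9bd_an

open Set Metric Complex
open scoped ComplexConjugate InnerProductSpace

variable {H : Type*} [NormedAddCommGroup H] [InnerProductSpace ℂ H]

lemma low1 (n : ℕ) (hn : 1 ≤ n) (A : ContinuousMultilinearMap ℂ (fun _ : Fin (n + 1) => H) H)
    {ρ : ℝ} (hρ : ρ < 1) (hv : ∀ x : H, ‖x‖ = 1 → ‖⟪x, A fun _ => x⟫_ℂ‖ ≤ ρ) (x e : H)
    (hx : ‖x‖ = 1) (he : ‖e‖ = 1) (ho : ⟪x, e⟫_ℂ = 0) :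
    (‖⟪x, A fun _ => x⟫_ℂ‖ ^ 2 + ‖⟪e, A fun _ => x⟫_ℂ‖ ^ 2) *
      (((n : ℝ) + 1) ^ (n + 1) / (n + 2) ^ (n + 2)) ≤ 1 := by
  have dQ : Differentiable ℂ fun t : ℂ => A fun _ => x + t • e :=
    ((A.contDiff (n := 1)).differentiable one_ne_zero).comp (differentiable_pi.2 fun _ => by fun_prop)
  have dq : ∀ y : H, Differentiable ℂ fun t : ℂ => ⟪y, A fun _ => x + t • e⟫_ℂ := fun y =>
    (innerSL ℂ y).differentiable.comp dQ
  refine core n hn _ (deriv (fun t : ℂ => ⟪e, A fun _ => x + t • e⟫_ℂ) 0) _ (by positivity)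
    ((hv x hx).trans hρ.le) fun s hs => ?_
  obtain ⟨c, c0, hc⟩ : ∃ c : ℝ, 0 < c ∧ c = Real.sqrt (1 - s) :=
    ⟨_, Real.sqrt_pos.2 (by linarith [hs.2]), rfl⟩
  obtain ⟨σ, s0, hσ⟩ : ∃ c : ℝ, 0 < c ∧ c = Real.sqrt s := ⟨_, Real.sqrt_pos.2 hs.1, rfl⟩
  have c2 : c ^ 2 = 1 - s := by rw [hc, Real.sq_sqrt (by linarith [hs.2])]
  have s2 : σ ^ 2 = s := by rw [hσ, Real.sq_sqrt hs.1.le]
  have c1 : (c : ℂ) ≠ 0 := by exact_mod_cast c0.ne'
  have d0 : HasDerivAt (fun z : ℂ => σ / c * z) (σ / c) 0 := by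
    simpa using (hasDerivAt_id (0 : ℂ)).const_mul (σ / c : ℂ)
  have d : ∀ y : H, HasDerivAt (fun z : ℂ => ⟪y, A fun _ => x + (σ / c * z) • e⟫_ℂ)
      (deriv (fun t : ℂ => ⟪y, A fun _ => x + t • e⟫_ℂ) 0 * (σ / c)) 0 := fun y =>
    HasDerivAt.comp_of_eq (h₂ := fun t : ℂ => ⟪y, A fun _ => x + t • e⟫_ℂ) 0
      (dq y 0).hasDerivAt d0 (by simp)
  have dd : ∀ y : H, Differentiable ℂ fun z : ℂ => ⟪y, A fun _ => x + (σ / c * z) • e⟫_ℂ :=
    fun y => (dq y).comp (f := fun z : ℂ => σ / c * z) (by fun_prop)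
  have k := pick (g := fun z => (c : ℂ) ^ (n + 1) * (c * (z * ⟪x, A fun _ => x + (σ / c * z) • e⟫_ℂ) +
    σ * ⟪e, A fun _ => x + (σ / c * z) • e⟫_ℂ))
    ((((differentiable_id.mul (dd x)).const_mul (c : ℂ)).add ((dd e).const_mul _)).const_mul _)
    hρ fun z hz => by
      have n1 : ‖(c : ℂ) • (x + (σ / c * z) • e)‖ = 1 := by
        have := norm_add_sq_eq_norm_sq_add_norm_sq_of_inner_eq_zero (𝕜 := ℂ) x ((σ / c * z) • e)
          (by rw [inner_smul_right, ho, mul_zero])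
        rw [← sq_eq_sq₀ (norm_nonneg _) zero_le_one, norm_smul, mul_pow, sq ‖x + _‖, this, norm_smul,
          hx, he, norm_mul, norm_div, hz, norm_real, norm_real, Real.norm_of_nonneg c0.le,
          Real.norm_of_nonneg s0.le]
        field_simp
        linarith
      have k := hv _ n1
      rw [A.map_smul_univ, Finset.prod_const, Finset.card_univ, Fintype.card_fin, inner_smul_left,
        inner_smul_right, inner_add_left, inner_smul_left] at k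
      refine le_trans (le_of_eq ?_) k
      rw [← one_mul ‖conj (c : ℂ) * _‖, ← hz, ← norm_mul]
      congr 1
      have : z * conj z = 1 := by rw [mul_conj', hz]; simp
      simp only [map_mul, map_div₀, conj_ofReal]
      generalize (A fun _ => x + (σ / c * z) • e) = Y
      field_simp
      linear_combination (-(σ * ⟪e, Y⟫_ℂ)) * this
  rw [(((((hasDerivAt_id' (0 : ℂ)).fun_mul (d x)).const_mul (c : ℂ)).fun_add
    ((d e).const_mul (σ : ℂ))).const_mul _).deriv] at k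
  simp only [mul_zero, zero_smul, add_zero, zero_mul, one_mul, zero_add, norm_mul, norm_pow,
    norm_real, Real.norm_of_nonneg c0.le, Real.norm_of_nonneg s0.le] at k
  rw [← hc, ← c2, ← s2]
  refine le_trans (le_of_eq ?_) (k.trans (le_of_eq (by ring)))
  have nm : ∀ z : ℂ, c * ‖z‖ = ‖c * z‖ := fun z => by
    rw [norm_mul, norm_real, Real.norm_of_nonneg c0.le]
  rw [pow_succ c n, mul_assoc, nm]
  congr 2
  have c3 : (1 : ℂ) - σ ^ 2 = c ^ 2 := by exact_mod_cast (by linarith : 1 - σ ^ 2 = c ^ 2)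
  push_cast
  rw [c3]
  field_simp

lemma low2 (n : ℕ) (hn : 1 ≤ n) (A : ContinuousMultilinearMap ℂ (fun _ : Fin (n + 1) => H) H)
    {ρ : ℝ} (hρ : ρ < 1) (hv : ∀ x : H, ‖x‖ = 1 → ‖⟪x, A fun _ => x⟫_ℂ‖ ≤ ρ) (x : H)
    (hx : ‖x‖ = 1) :
    ‖A fun _ => x‖ ^ 2 * (((n : ℝ) + 1) ^ (n + 1) / (n + 2) ^ (n + 2)) ≤ 1 := by
  obtain ⟨y, hy⟩ : ∃ y, y = A fun _ => x := ⟨_, rfl⟩
  obtain ⟨z, hz⟩ : ∃ z, z = y - ⟪x, y⟫_ℂ • x := ⟨_, rfl⟩
  have xx : ⟪x, x⟫_ℂ = 1 := by rw [inner_self_eq_norm_sq_to_K, hx]; simp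
  have o : ⟪x, z⟫_ℂ = 0 := by rw [hz, inner_sub_right, inner_smul_right, xx, mul_one, sub_self]
  have e : y = ⟪x, y⟫_ℂ • x + z := by rw [hz]; abel
  have py : ‖y‖ ^ 2 = ‖⟪x, y⟫_ℂ‖ ^ 2 + ‖z‖ ^ 2 := by
    have := norm_add_sq_eq_norm_sq_add_norm_sq_of_inner_eq_zero (𝕜 := ℂ) (⟪x, y⟫_ℂ • x) z
      (by rw [inner_smul_left, o, mul_zero])
    rw [← e, norm_smul, hx, mul_one] at this
    linarith
  rcases eq_or_ne z 0 with h | h
  · have h1 := (hv x hx).trans hρ.le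
    rw [← hy] at h1 ⊢
    rw [py, h, norm_zero]
    refine mul_le_one₀ (by nlinarith [norm_nonneg ⟪x, y⟫_ℂ]) (by positivity) ?_
    rw [div_le_one (by positivity)]
    exact (pow_le_pow_left₀ (by positivity) (by linarith) _).trans
      (pow_le_pow_right₀ (by linarith [Nat.cast_nonneg (α := ℝ) n]) (by omega))
  · have z0 : ‖z‖ ≠ 0 := norm_ne_zero_iff.2 h
    have := low1 n hn A hρ hv x ((‖z‖⁻¹ : ℂ) • z) hx (by rw [norm_smul]; simp [z0])
      (by rw [inner_smul_right, o, mul_zero])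
    rw [← hy] at this ⊢
    rw [py]
    convert this using 4
    have o' : ⟪z, x⟫_ℂ = 0 := by rw [← inner_conj_symm, o, map_zero]
    have : ⟪z, y⟫_ℂ = ‖z‖ ^ 2 := by
      nth_rewrite 1 [e]
      rw [inner_add_right, inner_smul_right, o', mul_zero, zero_add, inner_self_eq_norm_sq_to_K]
      rfl
    rw [inner_smul_left, this]
    simp
    field_simp

theorem lower (k : ℕ) (hk : 2 ≤ k) (A : ContinuousMultilinearMap ℂ (fun _ : Fin k => H) H)
    {v : ℝ} (hv : ∀ x : H, ‖x‖ = 1 → ‖⟪x, A fun _ => x⟫_ℂ‖ ≤ v) (x : H) (hx : ‖x‖ = 1) :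
    ‖A fun _ => x‖ * Real.sqrt ((k : ℝ) ^ k / (k + 1) ^ (k + 1)) ≤ v := by
  obtain ⟨n, rfl⟩ : ∃ n, k = n + 1 := ⟨k - 1, by omega⟩
  refine le_of_forall_gt_imp_ge_of_dense fun w hw => ?_
  have w0 : 0 < w := ((norm_nonneg _).trans (hv x hx)).trans_lt hw
  have nw : ‖(w⁻¹ : ℂ)‖ = w⁻¹ := by simp [abs_of_pos w0]
  have := low2 n (by omega) ((w⁻¹ : ℂ) • A) ((div_lt_one w0).2 hw) (fun y hy => by
    rw [smul_apply, inner_smul_right, norm_mul, nw, div_eq_inv_mul]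
    gcongr
    exact hv y hy) x hx
  rw [smul_apply, norm_smul, nw, mul_pow, mul_assoc, inv_pow, inv_mul_le_iff₀ (by positivity),
    mul_one] at this
  refine le_of_pow_le_pow_left₀ two_ne_zero w0.le ?_
  rw [mul_pow, Real.sq_sqrt (by positivity)]
  push_cast
  convert this using 4
  ring

lemma riesz [CompleteSpace H] (x : H) (l : H →L[ℂ] ℂ) (hx : ‖x‖ = 1) (hl : ‖l‖ = 1)
    (h : l x = 1) (y : H) : l y = ⟪x, y⟫_ℂ := by
  obtain ⟨u, rfl⟩ := (InnerProductSpace.toDual ℂ H).surjective l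
  rw [LinearIsometryEquiv.norm_map] at hl
  rw [InnerProductSpace.toDual_apply_apply] at h ⊢
  rw [(inner_eq_one_iff_of_norm_eq_one hl hx).1 h]

theorem upper (k : ℕ) (hk : 0 < k) (e : Fin 2 → H) (he : Orthonormal ℂ e) :
    ∃ A : ContinuousMultilinearMap ℂ (fun _ : Fin k => H) H, ‖A fun _ => e 0‖ = 1 ∧
      ∀ x : H, ‖x‖ = 1 → ‖A fun _ => x‖ ≤ 1 ∧
        ‖⟪x, A fun _ => x⟫_ℂ‖ ≤ Real.sqrt ((k : ℝ) ^ k / (k + 1) ^ (k + 1)) := by
  refine ⟨((ContinuousMultilinearMap.mkPiAlgebra ℂ (Fin k) ℂ).compContinuousLinearMap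
    fun _ => innerSL ℂ (e 0)).smulRight (e 1), by simp [he.1], fun x hx => ?_⟩
  have b := he.sum_inner_products_le x (s := Finset.univ)
  rw [Fin.sum_univ_two, hx, one_pow] at b
  simp only [ContinuousMultilinearMap.smulRight_apply,
    ContinuousMultilinearMap.compContinuousLinearMap_apply, innerSL_apply_apply,
    ContinuousMultilinearMap.mkPiAlgebra_apply, Finset.prod_const, Finset.card_univ,
    Fintype.card_fin, norm_smul, norm_pow, he.1, mul_one, inner_smul_right, norm_mul]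
  refine ⟨pow_le_one₀ (norm_nonneg _)
    (by nlinarith [norm_nonneg ⟪e 0, x⟫_ℂ, sq_nonneg ‖⟪e 1, x⟫_ℂ‖]), Real.le_sqrt_of_sq_le ?_⟩
  rw [mul_pow, ← pow_mul, mul_comm k 2, pow_mul, norm_inner_symm x]
  exact amgm k hk _ _ (by positivity) (by positivity) b

end Pool.Agent.H.MP_8db9bd_an
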